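import Mathlib
import Pool.Agent.H74.Win.NatE
import Pool.Agent.Q1.M6c.Diff
import Pool.Agent.Q1.M6c.Compare

set_option autoImplicit false
open Finset

/-! # Displacements and potentials of windows

`potN_corner` : a potential of a window is a primitive at the corners of the window. `cs t` : shift of the
labels which belongs to the shift `t` of the tiles, `sft t A`. `D_tele` : a primitive at the corners of a box
gives the displacement. `D_pot` : displacement of an environment whose increments are, after a shift of the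
tiles, a multiple of those of a window. -/

namespace Pool.Agent.H98.G

open Pool.Agent.H75.Perc hiding ph
open Pool.Agent.H75.TwoArm Pool.Agent.Q1 Pool.Agent.H33.Q1
open Pool.Agent.H74.R45 Pool.Agent.H74.Win
open Pool.Agent.H99.NC
open Pool.Agent.Q1.Env (InBx inBx_h1 inBx_h2 inBx_v1 inBx_v2)
open Pool.Agent.H46.Sp (Win)
open Pool.Agent.H46.Sp.Win (m_le_a b_le_M m_le_a' b_le_M')

/-! ### Corners -/

/-- a corner is a horizontal or a vertical edge of the tiles -/
lemma corner_cases (c : ℤ × ℤ) : (∃ x y, c = he (x, y)) ∨ ∃ x y, c = ve (x, y) := by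
  rcases Int.emod_two_eq_zero_or_one (c.1 + c.2) with h | h
  · left
    refine ⟨(c.1 + c.2) / 2 - 1, (c.2 - c.1) / 2, ?_⟩
    unfold he
    refine Prod.ext ?_ ?_ <;> simp only <;> omega
  · right
    refine ⟨(c.1 + c.2 - 1) / 2, (c.2 - c.1 - 1) / 2, ?_⟩
    unfold ve
    refine Prod.ext ?_ ?_ <;> simp only <;> omega

/-- **A potential of a window is a primitive at the corners of the window.** -/
theorem potN_corner {D : Win} {p : Bool} {F : ℤ × ℤ → ℂ} {H : ℤ → ℤ → ℂ} (hP : PotN D p F H)
    {c : ℤ × ℤ} (hc : RC (EN D p) c) :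
    H (tv (vx c)).1 (tv (vx c)).2 - H (tf (fi c)).1 (tf (fi c)).2 = F c := by
  rcases corner_cases c with ⟨x, y, rfl⟩ | ⟨x, y, rfl⟩
  · -- horizontal
    have hI : InP D p x y ∨ InP D p x (y - 1) := by
      rcases Int.emod_two_eq_zero_or_one (x + y) with h | h
      · rcases hc with hc | hc
        · left; rwa [lab_he_N h, mem_EN] at hc
        · right; rwa [plab_he_N h, mem_EN] at hc
      · rcases hc with hc | hc
        · right; rwa [lab_he_S h, mem_EN] at hc
        · left; rwa [plab_he_S h, mem_EN] at hc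
    have rng : - sh p ≤ y ∧ y ≤ D.h - sh p ∧ D.m (y + sh p - 1) ≤ x ∧ x < D.M (y + sh p - 1) := by
      rcases hI with ⟨h1, h2, h3, h4⟩ | ⟨h1, h2, h3, h4⟩
      · have k1 := m_le_a' (D := D) (y := y + sh p - 1) (by omega)
        have k2 := b_le_M' (D := D) (y := y + sh p - 1) (by omega)
        rw [sub_add_cancel] at k1 k2
        exact ⟨by omega, by omega, by omega, by omega⟩
      · have e : y - 1 + sh p = y + sh p - 1 := by ring
        rw [e] at h1 h2 h3 h4
        have k1 := m_le_a (D := D) (y := y + sh p - 1) (by omega)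
        have k2 := b_le_M (D := D) (y := y + sh p - 1) (by omega)
        exact ⟨by omega, by omega, by omega, by omega⟩
    have key := hP.hor x y rng.1 rng.2.1 rng.2.2.1 rng.2.2.2
    rcases Int.emod_two_eq_zero_or_one (x + y) with h | h
    · have e1 : tv (vx (he (x, y))) = (x, y) := by
        unfold tv vx he; refine Prod.ext ?_ ?_ <;> dsimp only <;> omega
      have e2 : tf (fi (he (x, y))) = (x + 1, y) := by
        unfold tf fi he; refine Prod.ext ?_ ?_ <;> dsimp only <;> omega
      rw [e1, e2]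
      rw [sg_even h, one_mul] at key
      exact key.symm
    · have e1 : tv (vx (he (x, y))) = (x + 1, y) := by
        unfold tv vx he; refine Prod.ext ?_ ?_ <;> dsimp only <;> omega
      have e2 : tf (fi (he (x, y))) = (x, y) := by
        unfold tf fi he; refine Prod.ext ?_ ?_ <;> dsimp only <;> omega
      rw [e1, e2]
      rw [sg_odd h] at key
      linear_combination key
  · -- vertical
    have hI : InP D p x y ∨ InP D p (x - 1) y := by
      rcases Int.emod_two_eq_zero_or_one (x + y) with h | h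
      · rcases hc with hc | hc
        · right; rwa [lab_ve_W h, mem_EN] at hc
        · left; rwa [plab_ve_W h, mem_EN] at hc
      · rcases hc with hc | hc
        · left; rwa [lab_ve_E h, mem_EN] at hc
        · right; rwa [plab_ve_E h, mem_EN] at hc
    have rng : - sh p ≤ y ∧ y < D.h - sh p ∧ D.a (y + sh p) ≤ x ∧ x ≤ D.b (y + sh p) := by
      rcases hI with ⟨h1, h2, h3, h4⟩ | ⟨h1, h2, h3, h4⟩
      · exact ⟨by omega, by omega, by omega, by omega⟩
      · exact ⟨by omega, by omega, by omega, by omega⟩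
    have key := hP.ver x y rng.1 rng.2.1 rng.2.2.1 rng.2.2.2
    rcases Int.emod_two_eq_zero_or_one (x + y) with h | h
    · have e1 : tv (vx (ve (x, y))) = (x, y) := by
        unfold tv vx ve; refine Prod.ext ?_ ?_ <;> dsimp only <;> omega
      have e2 : tf (fi (ve (x, y))) = (x, y + 1) := by
        unfold tf fi ve; refine Prod.ext ?_ ?_ <;> dsimp only <;> omega
      rw [e1, e2]
      rw [sg_even h, one_mul] at key
      exact key.symm
    · have e1 : tv (vx (ve (x, y))) = (x, y + 1) := by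
        unfold tv vx ve; refine Prod.ext ?_ ?_ <;> dsimp only <;> omega
      have e2 : tf (fi (ve (x, y))) = (x, y) := by
        unfold tf fi ve; refine Prod.ext ?_ ?_ <;> dsimp only <;> omega
      rw [e1, e2]
      rw [sg_odd h] at key
      linear_combination key

/-! ### Shifts -/

/-- shift of the labels which belongs to the shift `t` of the tiles -/
def cs (t : ℤ × ℤ) : ℤ × ℤ := (t.1 - t.2, t.1 + t.2)

/-- the shifted set of labels -/
noncomputable def sft (t : ℤ × ℤ) (A : Finset (ℤ × ℤ)) : Finset (ℤ × ℤ) := A.image (· + cs t)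

lemma mem_sft {t : ℤ × ℤ} {A : Finset (ℤ × ℤ)} {e : ℤ × ℤ} : e ∈ sft t A ↔ e - cs t ∈ A := by
  unfold sft
  rw [mem_image]
  constructor
  · rintro ⟨a, ha, rfl⟩
    rwa [add_sub_cancel_right]
  · intro h
    exact ⟨_, h, sub_add_cancel _ _⟩

section
variable {t : ℤ × ℤ} (ht : (t.1 + t.2) % 2 = 0)
include ht

lemma lab_cs (c : ℤ × ℤ) : lab (c + cs t) = lab c + cs t := by
  obtain ⟨a, b⟩ := c
  unfold lab cs
  simp only [Prod.mk_add_mk]
  have e1 : (a + (t.1 - t.2)) % 2 = a % 2 := by omega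
  have e2 : (b + (t.1 + t.2)) % 2 = b % 2 := by omega
  rw [e1, e2]
  split_ifs <;> (refine Prod.ext ?_ ?_ <;> simp only [Prod.mk_add_mk] <;> ring)

lemma plab_cs (c : ℤ × ℤ) : plab (c + cs t) = plab c + cs t := by
  obtain ⟨a, b⟩ := c
  unfold plab cs
  simp only [Prod.mk_add_mk]
  have e1 : (a + (t.1 - t.2)) % 2 = a % 2 := by omega
  have e2 : (b + (t.1 + t.2)) % 2 = b % 2 := by omega
  rw [e1, e2]
  split_ifs <;> (refine Prod.ext ?_ ?_ <;> simp only [Prod.mk_add_mk] <;> ring)

lemma tv_vx_cs (c : ℤ × ℤ) : tv (vx (c + cs t)) = tv (vx c) + t := by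
  obtain ⟨a, b⟩ := c
  unfold tv vx cs
  refine Prod.ext ?_ ?_ <;> simp only [Prod.mk_add_mk, Prod.fst_add, Prod.snd_add] <;> omega

lemma tf_fi_cs (c : ℤ × ℤ) : tf (fi (c + cs t)) = tf (fi c) + t := by
  obtain ⟨a, b⟩ := c
  unfold tf fi cs
  refine Prod.ext ?_ ?_ <;> simp only [Prod.mk_add_mk, Prod.fst_add, Prod.snd_add] <;> omega

/-- the corners of the shifted set -/
lemma RC_sft {A : Finset (ℤ × ℤ)} {c : ℤ × ℤ} : RC (sft t A) (c + cs t) ↔ RC A c := by
  unfold RC
  rw [lab_cs ht, plab_cs ht, mem_sft, mem_sft, add_sub_cancel_right, add_sub_cancel_right]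

end

/-! ### Displacements -/

/-- **A primitive at the corners of a box gives the displacement.** -/
theorem D_tele {Y : Env} {a b c d : ℤ} {Hv Hf : ℤ × ℤ → ℂ}
    (h : ∀ z, InBx a b c d z → Y.inc z = Hv (vx z) - Hf (fi z)) {u v : ℤ × ℤ}
    (hu : inB a b c d u) (hv : inB a b c d v) : Y.D u v = Hv v - Hv u := by
  obtain ⟨⟨u1, u2⟩, u3, u4⟩ := hu
  obtain ⟨⟨v1, v2⟩, v3, v4⟩ := hv
  have e1 : Y.hsm u.2 u.1 v.1 = Hv (v.1, u.2) - Hv (u.1, u.2) := by
    unfold Env.hsm
    refine Env.tele_Ico' (f := fun i => Hv (i, u.2)) fun i h1 h2 => ?_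
    unfold Env.hst
    rw [h _ (inBx_h2 (by omega) (by omega) u3 u4), h _ (inBx_h1 (by omega) (by omega) u3 u4)]
    have f1 : vx (2 * i + 2, 2 * u.2) = (i + 1, u.2) := by
      unfold vx; refine Prod.ext ?_ ?_ <;> simp only <;> omega
    have f2 : vx (2 * i + 1, 2 * u.2) = (i, u.2) := by
      unfold vx; refine Prod.ext ?_ ?_ <;> simp only <;> omega
    have f3 : fi (2 * i + 2, 2 * u.2) = fi (2 * i + 1, 2 * u.2) := by
      unfold fi; refine Prod.ext ?_ ?_ <;> simp only <;> omega
    rw [f1, f2, f3]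
    ring
  have e2 : Y.vsm v.1 u.2 v.2 = Hv (v.1, v.2) - Hv (v.1, u.2) := by
    unfold Env.vsm
    refine Env.tele_Ico' (f := fun i => Hv (v.1, i)) fun i h1 h2 => ?_
    unfold Env.vst
    rw [h _ (inBx_v1 v1 v2 (by omega) (by omega)), h _ (inBx_v2 v1 v2 (by omega) (by omega))]
    have f1 : vx (2 * v.1, 2 * i + 2) = (v.1, i + 1) := by
      unfold vx; refine Prod.ext ?_ ?_ <;> simp only <;> omega
    have f2 : vx (2 * v.1, 2 * i + 1) = (v.1, i) := by
      unfold vx; refine Prod.ext ?_ ?_ <;> simp only <;> omega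
    have f3 : fi (2 * v.1, 2 * i + 2) = fi (2 * v.1, 2 * i + 1) := by
      unfold fi; refine Prod.ext ?_ ?_ <;> simp only <;> omega
    rw [f1, f2, f3]
    ring
  unfold Env.D
  rw [e1, e2]
  ring

/-- the corners of a box of the shifted window -/
lemma RC_box {t : ℤ × ℤ} (ht : (t.1 + t.2) % 2 = 0) {A : Finset (ℤ × ℤ)} {a b c d : ℤ}
    (hB : Bx a b c d ⊆ sft t A) {z : ℤ × ℤ} (hz : InBx a b c d z) : RC A (z - cs t) := by
  rw [← RC_sft ht, sub_add_cancel]
  rcases hz.2 with h | h
  · exact Or.inl (hB h)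
  · exact Or.inr (hB h)

/-- **The displacement from the potential of a window.** -/
theorem D_pot {D : Win} {p : Bool} {F : ℤ × ℤ → ℂ} {H : ℤ → ℤ → ℂ} (hP : PotN D p F H)
    {t : ℤ × ℤ} (ht : (t.1 + t.2) % 2 = 0) {Y : Env} {κ : ℂ}
    (hinc : ∀ c, RC (EN D p) c → Y.inc (c + cs t) = κ * F c) {a b c d : ℤ}
    (hB : Bx a b c d ⊆ sft t (EN D p)) {u v : ℤ × ℤ} (hu : inB a b c d u) (hv : inB a b c d v) :
    Y.D u v = κ * (H (tv v - t).1 (tv v - t).2 - H (tv u - t).1 (tv u - t).2) := by
  rw [D_tele (Hv := fun v => κ * H (tv v - t).1 (tv v - t).2)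
    (Hf := fun f => κ * H (tf f - t).1 (tf f - t).2) ?_ hu hv]
  · ring
  · intro z hz
    have h1 := RC_box ht hB hz
    have h2 := hinc _ h1
    rw [sub_add_cancel] at h2
    have h3 := potN_corner hP h1
    have e1 : tv (vx (z - cs t)) = tv (vx z) - t := by
      have := tv_vx_cs ht (z - cs t)
      rw [sub_add_cancel] at this
      rw [this, add_sub_cancel_right]
    have e2 : tf (fi (z - cs t)) = tf (fi z) - t := by
      have := tf_fi_cs ht (z - cs t)
      rw [sub_add_cancel] at this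
      rw [this, add_sub_cancel_right]
    rw [e1, e2] at h3
    rw [h2, ← h3]
    ring

/-- no increments -/
theorem D_none {A : Finset (ℤ × ℤ)} {t : ℤ × ℤ} (ht : (t.1 + t.2) % 2 = 0) {Y : Env}
    (hinc : ∀ c, RC A c → Y.inc (c + cs t) = 0) {a b c d : ℤ}
    (hB : Bx a b c d ⊆ sft t A) {u v : ℤ × ℤ} (hu : inB a b c d u) (hv : inB a b c d v) :
    Y.D u v = 0 := by
  rw [D_tele (Hv := fun _ => 0) (Hf := fun _ => 0) ?_ hu hv, sub_zero]
  intro z hz
  have h2 := hinc _ (RC_box ht hB hz)
  rw [sub_add_cancel] at h2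
  rw [h2, sub_zero]

end Pool.Agent.H98.G
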