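import Mathlib
import Pool.Agent.H98.G.PotD
import Pool.Agent.H59.J.JTop

set_option autoImplicit false
open Filter Topology

/-! # Averages of displacements are mixtures of potentials of windows

`R3 Cl m W0 t Y` : the increments of the environment `Y` at the corners of the shifted window `W0` are a
multiple of those of a window of the class `Cl`, or zero. `exists_mix` : if this holds for all the frozen
environments of `Z`, the displacement of `Z` is a mixture of potentials of the class. `exists_mixG` : the same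
for sequences, in the form `MixG`. -/

namespace Pool.Agent.H98.G

open Pool.Agent.H75.Perc hiding ph
open Pool.Agent.H75.TwoArm Pool.Agent.Q1 Pool.Agent.H33.Q1
open Pool.Agent.H74.R45 Pool.Agent.H74.Win
open Pool.Agent.H99.NC
open Pool.Agent.H46.Sp (Win)
open Pool.Agent.H59.J

/-- the increments of `Y` at the corners of the shifted window -/
def R3 (Cl : ℕ → ∀ D : Win, OutB D → Prop) (m : ℕ) (W0 : Finset (ℤ × ℤ)) (t : ℤ × ℤ) (Y : Env) : Prop :=
  (∃ (D : Win) (O : OutB D) (κ : ℂ), Cl m D O ∧ EN D false = W0 ∧ ‖κ‖ ≤ 1 ∧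
    ∀ c, RC W0 c → Y.inc (c + cs t) = κ * (XN O false ∅).inc c) ∨
  ∀ c, RC W0 c → Y.inc (c + cs t) = 0

/-- the displacement of an environment with `R3` -/
theorem R3.disp {Cl : ℕ → ∀ D : Win, OutB D → Prop} {m : ℕ} {W0 : Finset (ℤ × ℤ)} {t : ℤ × ℤ}
    {Y : Env} (h : R3 Cl m W0 t Y) (ht : (t.1 + t.2) % 2 = 0) :
    (∃ (D : Win) (O : OutB D) (κ : ℂ), Cl m D O ∧ ‖κ‖ ≤ 1 ∧ ∀ a b c d : ℤ, Bx a b c d ⊆ sft t W0 →
      ∀ u v, inB a b c d u → inB a b c d v →
        Y.D u v = κ * (HF O (tv v - t) - HF O (tv u - t))) ∨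
    ∀ a b c d : ℤ, Bx a b c d ⊆ sft t W0 → ∀ u v, inB a b c d u → inB a b c d v → Y.D u v = 0 := by
  rcases h with ⟨D, O, κ, h1, rfl, h2, h3⟩ | h
  · left
    refine ⟨D, O, κ, h1, h2, fun a b c d hB u v hu hv => ?_⟩
    exact D_pot (Pool.Agent.H44.FM.Wi.potN_HN O false ∅) ht h3 hB hu hv
  · right
    exact fun a b c d hB u v hu hv => D_none ht h hB hu hv

/-- **The displacement is a mixture.** -/
theorem exists_mix {Cl : ℕ → ∀ D : Win, OutB D → Prop} {m : ℕ} {W0 : Finset (ℤ × ℤ)} {t : ℤ × ℤ}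
    {Z : Env} (ht : (t.1 + t.2) % 2 = 0)
    (h3 : ∀ ω, ω ⊆ Z.E \ sft t W0 → R3 Cl m W0 t (Z.freeze (sft t W0) ω)) :
    ∃ f : ℤ × ℤ → ℂ, Mx Cl m f ∧ ∀ a b c d : ℤ, Bx a b c d ⊆ sft t W0 →
      ∀ u v, inB a b c d u → inB a b c d v → Z.D u v = f (tv v - t) - f (tv u - t) := by
  classical
  set A : Finset (ℤ × ℤ) := Z.E \ sft t W0 with hA
  -- the configurations of the first kind
  set P : Finset (ℤ × ℤ) → Prop := fun ω => ∃ (D : Win) (O : OutB D) (κ : ℂ), Cl m D O ∧ ‖κ‖ ≤ 1 ∧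
    ∀ a b c d : ℤ, Bx a b c d ⊆ sft t W0 → ∀ u v, inB a b c d u → inB a b c d v →
      (Z.freeze (sft t W0) ω).D u v = κ * (HF O (tv v - t) - HF O (tv u - t)) with hP
  set g : Finset (Finset (ℤ × ℤ)) := A.powerset.filter P with hg
  have hex : ∀ i : {ω // ω ∈ g}, P i.1 := fun i => (Finset.mem_filter.1 i.2).2
  choose D O κ h1 h2 h4 using hex
  set q : ℂ := (1 / 2 : ℂ) ^ A.card with hq
  have hqn : ‖q‖ = (1 / 2 : ℝ) ^ A.card := by
    rw [hq, norm_pow]
    norm_num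
  refine ⟨fun v => ∑ i ∈ g.attach, (q * κ i) * HF (O i) v, ⟨{ω // ω ∈ g}, g.attach, D, O,
    fun i => q * κ i, fun i _ => h1 i, ?_, fun v => rfl⟩, ?_⟩
  · -- total weight
    calc ∑ i ∈ g.attach, ‖q * κ i‖ ≤ ∑ _i ∈ g.attach, (1 / 2 : ℝ) ^ A.card := by
          refine Finset.sum_le_sum fun i _ => ?_
          rw [norm_mul, hqn]
          have := h2 i
          have h0 : (0 : ℝ) ≤ (1 / 2) ^ A.card := by positivity
          nlinarith
      _ = g.card * (1 / 2 : ℝ) ^ A.card := by rw [Finset.sum_const, Finset.card_attach, nsmul_eq_mul]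
      _ ≤ 2 ^ A.card * (1 / 2 : ℝ) ^ A.card := by
          refine mul_le_mul_of_nonneg_right ?_ (by positivity)
          have h5 : g.card ≤ A.powerset.card := Finset.card_filter_le _ _
          rw [Finset.card_powerset] at h5
          exact_mod_cast h5
      _ = 1 := by rw [← mul_pow]; norm_num
  · intro a b c d hB u v hu hv
    have e1 : Z.D u v = q * ∑ ω ∈ A.powerset, (Z.freeze (sft t W0) ω).D u v := by
      rw [Z.D_freeze (sft t W0) u v, Ec_half]
    rw [e1]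
    -- only the configurations of the first kind contribute
    have e2 : ∑ ω ∈ A.powerset, (Z.freeze (sft t W0) ω).D u v =
        ∑ ω ∈ g, (Z.freeze (sft t W0) ω).D u v := by
      rw [hg, Finset.sum_filter]
      refine Finset.sum_congr rfl fun ω hω => ?_
      split_ifs with hp
      · rfl
      · rcases (h3 ω (Finset.mem_powerset.1 hω)).disp ht with h | h
        · exact absurd h hp
        · exact h a b c d hB u v hu hv
    rw [e2, ← Finset.sum_attach, ← Finset.sum_sub_distrib, Finset.mul_sum]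
    refine Finset.sum_congr rfl fun i _ => ?_
    rw [h4 i a b c d hB u v hu hv]
    ring

/-- **The normalised displacements are normalised mixtures.** -/
theorem exists_mixG {Cl : ℕ → ∀ D : Win, OutB D → Prop} {R : ℕ → ℝ} {U : Ultrafilter ℕ} {m : ℕ → ℕ}
    {t : ℕ → ℤ × ℤ} {W0 : ℕ → Finset (ℤ × ℤ)} {Z : ℕ → Env}
    (ht : ∀ j, ((t j).1 + (t j).2) % 2 = 0)
    (h3 : ∀ᶠ j in (U : Filter ℕ), ∀ ω, ω ⊆ (Z j).E \ sft (t j) (W0 j) →
      R3 Cl (m j) (W0 j) (t j) ((Z j).freeze (sft (t j) (W0 j)) ω)) :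
    ∃ G : ℕ → ℤ × ℤ → ℂ, (∀ (z : ℂ) (r : ℝ), MixG R U m t Cl z r G) ∧
      ∀ᶠ j in (U : Filter ℕ), ∀ a b c d : ℤ, Bx a b c d ⊆ sft (t j) (W0 j) →
        ∀ u v, inB a b c d u → inB a b c d v →
          (((R j) ^ (-(2 / 3) : ℝ) : ℝ) : ℂ) * (Z j).D u v = G j (tv v) - G j (tv u) := by
  classical
  -- the mixtures
  set Q : ℕ → (ℤ × ℤ → ℂ) → Prop := fun j f => Mx Cl (m j) f ∧
    ∀ a b c d : ℤ, Bx a b c d ⊆ sft (t j) (W0 j) → ∀ u v, inB a b c d u → inB a b c d v →
      (Z j).D u v = f (tv v - t j) - f (tv u - t j) with hQ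
  set f : ℕ → ℤ × ℤ → ℂ := fun j => if h : ∃ f, Q j f then h.choose else 0 with hf
  have hfe : ∀ᶠ j in (U : Filter ℕ), Q j (f j) := by
    filter_upwards [h3] with j hj
    have h : ∃ f, Q j f := exists_mix (ht j) hj
    simp only [hf, dif_pos h]
    exact h.choose_spec
  refine ⟨fun j v => (((R j) ^ (-(2 / 3) : ℝ) : ℝ) : ℂ) * f j (v - t j), fun z r => ?_, ?_⟩
  · filter_upwards [hfe] with j hj
    exact ⟨f j, hj.1, fun v w _ _ => by ring⟩
  · filter_upwards [hfe] with j hj a b c d hB u v hu hv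
    rw [hj.2 a b c d hB u v hu hv]
    ring

end Pool.Agent.H98.G
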